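import Pool.Agent.W249.IR.S3

/-!
# IR-AS
-/

set_option autoImplicit false

namespace Pool.Agent.W249.IR

open Finset Pool.Agent.Helper999.Irr Pool.Agent.W104.Irr

theorem ascase (h3 : Labels) : AScase := by
  intro V _ _ T c par dep hR p hp3 hp hI hone h2
  have hdisj : ∀ u v w : V, u ∈ ch c par v → u ∈ ch c par w → v = w := fun u v w h h' =>
    (mem_ch.mp h).2.symm.trans (mem_ch.mp h').2
  -- the inner vertices other than the root
  set I : Finset V := univ.filter (fun v => v ∉ leaves c par ∧ v ≠ c) with hIdef
  have memI : ∀ v, v ∈ I ↔ v ∉ leaves c par ∧ v ≠ c := by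
    intro v; rw [hIdef]; simp
  have hin : univ \ leaves c par = insert c I := by
    ext v
    rw [mem_sdiff, mem_insert, memI]
    constructor
    · rintro ⟨-, h⟩
      by_cases h1 : v = c
      · exact Or.inl h1
      · exact Or.inr ⟨h, h1⟩
    · rintro (rfl | h)
      · exact ⟨mem_univ _, root_notMem_leaves⟩
      · exact ⟨mem_univ _, h.1⟩
  have hcI : c ∉ I := fun h => ((memI c).mp h).2 rfl
  have hicard : (univ \ leaves c par).card = I.card + 1 := by
    rw [hin, card_insert_of_notMem hcI]
  have hV : Fintype.card V = p + (I.card + 1) := by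
    rw [← hicard, ← hp, ← card_univ, add_comm, card_sdiff_add_card_eq_card (subset_univ _)]
  have hchc : (ch c par c).card = p := by
    have h1 := sum_ch c par
    have h4 : ∑ v : V, (ch c par v).card = ∑ v ∈ univ \ leaves c par, (ch c par v).card := by
      symm
      refine sum_subset (subset_univ _) fun v _ hv => ?_
      have hvl : v ∈ leaves c par := by
        by_contra h
        exact hv (mem_sdiff.mpr ⟨mem_univ _, h⟩)
      rw [(mem_leaves.mp hvl).2, card_empty]
    rw [hin, sum_insert hcI] at h4
    have h5 : ∑ v ∈ I, (ch c par v).card = I.card := by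
      rw [card_eq_sum_ones]
      exact sum_congr rfl fun v hv => hone v ((memI v).mp hv).2 ((memI v).mp hv).1
    omega
  -- the only child
  have hl : ∀ v : V, ∃ u, v ∈ AA c par → ch c par v = {u} := by
    intro v
    by_cases h : v ∈ AA c par
    · obtain ⟨u, hu⟩ := card_eq_one.mp (mem_AA.mp h).2.2.1
      exact ⟨u, fun _ => hu⟩
    · exact ⟨v, fun h' => absurd h' h⟩
  choose l hl using hl
  set As := AA c par with hAs
  have hlA : ∀ v ∈ As, l v ∈ ch c par v := fun v hv => by rw [hl v hv]; exact mem_singleton_self _
  have hlL : ∀ v ∈ As, l v ∈ leaves c par := fun v hv => (mem_AA.mp hv).2.2.2 _ (hlA v hv)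
  have hlinj : Set.InjOn l As := by
    intro u hu v hv huv
    have h4 := hlA u hu
    rw [huv] at h4
    exact hdisj _ _ _ h4 (hlA v hv)
  set A := As.image l with hA
  have hAcard : A.card = As.card := card_image_of_injOn hlinj
  have hAL : A ⊆ leaves c par := by
    intro y hy
    obtain ⟨v, hv, rfl⟩ := mem_image.mp hy
    exact hlL v hv
  -- the leaves at the root
  have hlr : leaves c par \ A = (ch c par c).filter (fun u => u ∈ leaves c par) := by
    ext u
    rw [mem_sdiff, mem_filter]
    constructor
    · rintro ⟨hu, huA⟩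
      refine ⟨?_, hu⟩
      have huc : u ≠ c := (mem_leaves.mp hu).1
      have hup : u ∈ ch c par (par u) := mem_ch.mpr ⟨huc, rfl⟩
      by_cases hpc : par u = c
      · rwa [hpc] at hup
      · exfalso
        have hpl : par u ∉ leaves c par := by
          intro h
          rw [(mem_leaves.mp h).2] at hup
          exact absurd hup (notMem_empty u)
        have h1 := hone _ hpc hpl
        obtain ⟨w, hw⟩ := card_eq_one.mp h1
        have hwu : u = w := by rw [hw, mem_singleton] at hup; exact hup
        have hpA : par u ∈ As := by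
          rw [hAs]
          refine mem_AA.mpr ⟨hpc, hpl, h1, fun y hy => ?_⟩
          rw [hw, mem_singleton] at hy
          rw [hy, ← hwu]
          exact hu
        refine huA (mem_image.mpr ⟨par u, hpA, ?_⟩)
        have h2 := hlA _ hpA
        rw [hw, mem_singleton] at h2
        rw [h2, hwu]
    · rintro ⟨huc, hu⟩
      refine ⟨hu, fun h => ?_⟩
      obtain ⟨v, hv, rfl⟩ := mem_image.mp h
      exact (mem_AA.mp hv).1 (hdisj _ _ _ (hlA v hv) huc)
  have ha2 : 2 ≤ As.card := by
    have h4 : (leaves c par \ A).card = p - As.card := by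
      rw [card_sdiff_of_subset hAL, hp, hAcard]
    have h5 := card_filter_add_card_filter_not (s := ch c par c) (fun u => u ∈ leaves c par)
    have h6 := card_le_card hAL
    rw [← hlr, h4, hchc] at h5
    rw [hp, hAcard] at h6
    omega
  -- the labels of the leaves
  obtain ⟨e0, hlab0, hinj0, -, hA0, -, -, -⟩ := h3 (leaves c par) A ∅ [] [] [] id id
    (by simp) (by simp) hAL (by simp) (by simp) (by simp) (by simp) (by simp)
  rw [hp] at hlab0
  have hLL0 : LL c par p e0 := ⟨hlab0, hinj0⟩
  have hlow : ∀ u ∈ leaves c par, u ∉ A → As.card + 1 ≤ e0 u := by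
    intro u hu huA
    by_contra hcon
    have h4 : (insert u A).image e0 ⊆ Icc 1 As.card := by
      intro y hy
      obtain ⟨w, hw, rfl⟩ := mem_image.mp hy
      rw [mem_Icc]
      rcases mem_insert.mp hw with rfl | hw
      · have := (hlab0 _ hu).1
        omega
      · have h5 := hA0 w hw
        simp only [List.length_nil] at h5
        omega
    have h5 := card_le_card h4
    rw [card_image_of_injOn, card_insert_of_notMem huA, Nat.card_Icc, hAcard] at h5
    · omega
    · refine hinj0.mono ?_
      intro y hy
      rcases mem_insert.mp (mem_coe.mp hy) with rfl | hy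
      · exact hu
      · exact hAL hy
  have hAsI : As ⊆ I := fun v hv => (memI v).mpr ⟨(mem_AA.mp hv).2.1, (mem_AA.mp hv).1⟩
  have hAsc := card_le_card hAsI
  -- initial state
  have st0 := init_closed (c := c) (par := par) (p := p) (ε := 0) (b := 0) (q := p) (Res := ∅)
    (As := As) (l := l) (lam := e0)
    (fun v hv => ⟨(mem_AA.mp hv).1, (mem_AA.mp hv).2.1, hl v hv, hlL v hv⟩)
    (fun v hv => by
      have h4 := hA0 (l v) (mem_image_of_mem l hv)
      simp only [List.length_nil] at h4
      rw [← hAcard]
      omega)
    hLL0 (by omega) (fun t ht => absurd ht (notMem_empty t)) (by omega) le_rfl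
  set e1 : V → ℕ := fun y => if y ∈ As then p - 0 else e0 y with he1
  set Q := I \ As with hQ
  have hUQ : As ∪ Q = I := union_sdiff_of_subset hAsI
  have hQcard : As.card + Q.card = I.card := by
    rw [hQ, card_sdiff_of_subset hAsI]; omega
  have hAsnl : ∀ v ∈ As, v ∉ leaves c par := fun v hv => (mem_AA.mp hv).2.1
  have he1l : ∀ v ∈ leaves c par, e1 v = e0 v := by
    intro v hv
    rw [he1]
    exact if_neg fun h => hAsnl v h hv
  obtain ⟨e', sl', a', f', st, he', hsl', haa, hff, hall, hlast⟩ :=
    greedy hR (q := p) (b := 0) (Res := ∅) le_rfl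
      (fun t ht => absurd ht (notMem_empty t)) (Q := Q) (P := As) st0
      (by
        rw [disjoint_left]
        intro v hv hv'
        exact (mem_sdiff.mp hv).2 hv')
      (fun v hv => by
        have := (memI v).mp (mem_sdiff.mp hv).1
        exact ⟨this.2, this.1⟩)
      (fun v hv u hu => by
        by_cases h : u ∈ leaves c par
        · exact Or.inl h
        · have huI : u ∈ I := (memI u).mpr ⟨h, (mem_ch.mp hu).1⟩
          by_cases h' : u ∈ As
          · exact Or.inr (Or.inl h')
          · exact Or.inr (Or.inr (mem_sdiff.mpr ⟨huI, h'⟩)))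
      (fun v hv hr => by
        obtain ⟨hvP, hvA⟩ := mem_sdiff.mp hv
        obtain ⟨hvl, hvc⟩ := (memI v).mp hvP
        left
        have h1 := hone v hvc hvl
        have h4 : ¬ ∀ u ∈ ch c par v, u ∈ leaves c par := fun hall =>
          hvA (by rw [hAs]; exact mem_AA.mpr ⟨hvc, hvl, h1, hall⟩)
        push Not at h4
        obtain ⟨u, hu, hul⟩ := h4
        rcases hr u hu with h | h
        · exact absurd h hul
        · have h5 : e1 u ≤ S c par e1 v :=
            single_le_sum (f := e1) (fun _ _ => Nat.zero_le _) hu
          have h6 : e1 u = p - 0 := if_pos h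
          omega)
      (by
        rw [card_empty]
        omega)
  rw [hUQ] at st
  have he'l : ∀ v ∈ leaves c par, e' v = e0 v := by
    intro v hv
    rw [he' v (fun h => ((memI v).mp (mem_sdiff.mp h).1).1 hv), he1l v hv]
  -- the children of the root
  have hroot : 3 * p ≤ S c par e' c := by
    have h4 : (ch c par c).card • 3 ≤ ∑ u ∈ ch c par c, e' u := by
      refine card_nsmul_le_sum _ _ _ fun u hu => ?_
      by_cases hul : u ∈ leaves c par
      · rw [he'l u hul]
        have h5 : u ∈ leaves c par \ A := by rw [hlr]; exact mem_filter.mpr ⟨hu, hul⟩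
        have := hlow u hul (mem_sdiff.mp h5).2
        omega
      · have huI : u ∈ I := (memI u).mpr ⟨hul, (mem_ch.mp hu).1⟩
        by_cases huA : u ∈ As
        · have h6 : e' u = p - 0 := by
            rw [he' u (fun h => (mem_sdiff.mp h).2 huA)]
            exact if_pos huA
          omega
        · have h7 := (hall u (mem_sdiff.mpr ⟨huI, huA⟩)).2
          omega
    rw [hchc, smul_eq_mul] at h4
    unfold S
    omega
  have hSle : ∀ v ∈ I, sl' v ≤ p := by
    intro v hv
    obtain ⟨hvl, hvc⟩ := (memI v).mp hv
    obtain ⟨u, hu⟩ := card_eq_one.mp (hone v hvc hvl)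
    have h4 := st.val v hv
    have h5 := (st.lab v hv).2
    have h6 : S c par e' v = e' u := by
      unfold S
      rw [hu, sum_singleton]
    have h7 : e' u ≤ p := by
      by_cases hul : u ∈ leaves c par
      · rw [he'l u hul]; exact (hlab0 u hul).2
      · have huc : u ≠ c := by
          have : u ∈ ch c par v := by rw [hu]; exact mem_singleton_self _
          exact (mem_ch.mp this).1
        exact (st.lab u ((memI u).mpr ⟨hul, huc⟩)).2
    omega
  refine fin_lab (e := e') (sl := fun v => if v = c then S c par e' c - p else sl' v) ?_ ?_ ?_ ?_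
    ?_ ?_
  · refine ⟨fun v hv => ?_, fun u hu v hv huv => ?_⟩
    · rw [he'l v hv]; exact hlab0 v hv
    · rw [he'l u hu, he'l v hv] at huv
      exact hinj0 hu hv huv
  · intro v hvc hvl
    exact st.lab v ((memI v).mpr ⟨hvl, hvc⟩)
  · intro v hvc hvl
    simp only [if_neg hvc]
    exact st.val v ((memI v).mpr ⟨hvl, hvc⟩)
  · simp only [if_true]
    omega
  · intro v hvl
    by_cases h : v = c
    · simp only [h, if_true]
      omega
    · simp only [if_neg h]
      exact st.one v ((memI v).mpr ⟨hvl, h⟩)
  · intro u v hul hvl huv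
    by_cases hu : u = c
    · by_cases hv : v = c
      · rw [hu, hv]
      · rw [if_pos hu, if_neg hv] at huv
        have := hSle v ((memI v).mpr ⟨hvl, hv⟩)
        omega
    · by_cases hv : v = c
      · rw [if_neg hu, if_pos hv] at huv
        have := hSle u ((memI u).mpr ⟨hul, hu⟩)
        omega
      · rw [if_neg hu, if_neg hv] at huv
        exact st.inj ((memI u).mpr ⟨hul, hu⟩) ((memI v).mpr ⟨hvl, hv⟩) huv

end Pool.Agent.W249.IR
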