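import Pool.Agent.W104.Irr.Stmts2

/-!
# IR-ABS: the family of labellings of a path of degree-two vertices
-/

set_option autoImplicit false

namespace Pool.Agent.W249.IR

open Finset Pool.Agent.Helper999.Irr Pool.Agent.W104.Irr

/-- extension of a function by two values -/
def ex2 {V : Type} [DecidableEq V] (t₂ t₁ : V) (a b : ℕ) (X : V → ℕ) : V → ℕ :=
  fun v => if v = t₂ then a else if v = t₁ then b else X v

theorem absChain : AbsChain := by
  intro V _ _ T c par dep hR p P e0 z hzc hzl hzP hzch hS i
  suffices h : ∀ (base : ℕ) (t : V), Up c par P z (2 * i) t →
      ∃ (C : Finset V) (G F : ℕ → V → ℕ), Abs c par p P e0 base i z t C G F ∧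
        ∀ v ∈ C, dep t ≤ dep v by
    intro base t ht
    obtain ⟨C, G, F, h1, -⟩ := h base t ht
    exact ⟨C, G, F, h1⟩
  induction i with
  | zero =>
    intro base t ht
    have htz : t = z := by
      generalize hn : 2 * 0 = n at ht
      cases ht with
      | zero => rfl
      | succ => omega
    subst htz
    refine ⟨{t}, fun φ _ => φ, fun φ _ => φ, ?_, ?_⟩
    · refine
        { mem := mem_singleton_self _
          memz := mem_singleton_self _
          crd := card_singleton _
          nl := ?_, cl := ?_, pr := ?_, lab := ?_, val := ?_, inj := ?_, rng := ?_, out := ?_ }
      · intro v hv
        rw [mem_singleton.mp hv]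
        exact ⟨hzc, hzl, hzP⟩
      · intro v hv
        exact Or.inl (mem_singleton.mp hv)
      · intro v hv hne
        exact absurd (mem_singleton.mp hv) hne
      · intro φ h1 h2 v _
        exact ⟨by omega, h2⟩
      · intro φ h1 h2 e he heC v hv
        have hvt := mem_singleton.mp hv
        subst hvt
        have h3 : S c par e v = S c par e0 v := by
          unfold S
          exact sum_congr rfl fun u hu => he u (hzch u hu)
        rw [h3, hS, heC v hv]
      · intro φ h1 h2
        simp
      · intro φ h1 h2 v _
        exact Or.inl rfl
      · intro φ h1 h2
        rfl
    · intro v hv
      rw [mem_singleton.mp hv]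
  | succ i ih =>
    intro base t₂ ht
    have ht' : Up c par P z (2 * i + 1 + 1) t₂ := ht
    cases ht' with
    | succ h2 k1 k2 k3 k4 =>
      rename_i t₁
      cases h2 with
      | succ h1 j1 j2 j3 j4 =>
        rename_i t
        obtain ⟨C, G, F, hA, hdep⟩ := ih (base + 2) t h1
        have d1 : dep t = dep t₁ + 1 := dep_ch hR (by rw [j4]; exact mem_singleton_self _)
        have d2 : dep t₁ = dep t₂ + 1 := dep_ch hR (by rw [k4]; exact mem_singleton_self _)
        have n1 : t₁ ∉ C := fun h => by have := hdep _ h; omega
        have n2 : t₂ ∉ C := fun h => by have := hdep _ h; omega
        have n12 : t₂ ≠ t₁ := fun h => by rw [h] at d2; omega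
        have n21 : t₂ ∉ insert t₁ C := fun h => by
          rcases mem_insert.mp h with h | h
          · exact n12 h
          · exact n2 h
        have hp1 : par t = t₁ := by
          have : t ∈ ch c par t₁ := by rw [j4]; exact mem_singleton_self _
          exact (mem_ch.mp this).2
        have hp2 : par t₁ = t₂ := by
          have : t₁ ∈ ch c par t₂ := by rw [k4]; exact mem_singleton_self _
          exact (mem_ch.mp this).2
        refine ⟨insert t₂ (insert t₁ C),
          fun φ => ex2 t₂ t₁ (φ - i - 1) (p + base + 2 - (φ - i)) (G φ),
          fun φ => ex2 t₂ t₁ (base + 1) (base + 2) (F φ), ?_, ?_⟩
        · have gC : ∀ (X : V → ℕ) (a b : ℕ), ∀ v ∈ C, ex2 t₂ t₁ a b X v = X v := by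
            intro X a b v hv
            have e2 : v ≠ t₂ := fun h => by rw [h] at hv; exact n2 hv
            have e1 : v ≠ t₁ := fun h => by rw [h] at hv; exact n1 hv
            unfold ex2
            rw [if_neg e2, if_neg e1]
          have g1 : ∀ (X : V → ℕ) (a b : ℕ), ex2 t₂ t₁ a b X t₁ = b := by
            intro X a b
            unfold ex2
            rw [if_neg (Ne.symm n12), if_pos rfl]
          have g2 : ∀ (X : V → ℕ) (a b : ℕ), ex2 t₂ t₁ a b X t₂ = a := by
            intro X a b
            unfold ex2
            rw [if_pos rfl]
          refine
            { mem := mem_insert_self _ _
              memz := mem_insert_of_mem (mem_insert_of_mem hA.memz)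
              crd := ?_
              nl := ?_, cl := ?_, pr := ?_, lab := ?_, val := ?_, inj := ?_, rng := ?_, out := ?_ }
          · rw [card_insert_of_notMem n21, card_insert_of_notMem n1, hA.crd]
            ring
          · intro v hv
            rcases mem_insert.mp hv with h | hv
            · rw [h]; exact ⟨k1, k2, k3⟩
            rcases mem_insert.mp hv with h | hv
            · rw [h]; exact ⟨j1, j2, j3⟩
            exact hA.nl v hv
          · intro v hv
            rcases mem_insert.mp hv with h | hv
            · rw [h]
              exact Or.inr ⟨t₁, mem_insert_of_mem (mem_insert_self _ _), k4⟩
            rcases mem_insert.mp hv with h | hv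
            · rw [h]
              exact Or.inr ⟨t, mem_insert_of_mem (mem_insert_of_mem hA.mem), j4⟩
            rcases hA.cl v hv with h | ⟨u, hu, h⟩
            · exact Or.inl h
            · exact Or.inr ⟨u, mem_insert_of_mem (mem_insert_of_mem hu), h⟩
          · intro v hv hne
            rcases mem_insert.mp hv with h | hv
            · exact absurd h hne
            rcases mem_insert.mp hv with h | hv
            · rw [h, hp2]; exact mem_insert_self _ _
            by_cases h : v = t
            · rw [h, hp1]; exact mem_insert_of_mem (mem_insert_self _ _)
            · exact mem_insert_of_mem (mem_insert_of_mem (hA.pr v hv h))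
          · intro φ h3 h4 v hv
            rcases mem_insert.mp hv with h | hv
            · rw [h]
              simp only [g2 (G φ)]
              omega
            rcases mem_insert.mp hv with h | hv
            · rw [h]
              simp only [g1 (G φ)]
              omega
            · simp only [gC (G φ) _ _ v hv]
              exact hA.lab φ (by omega) h4 v hv
          · intro φ h3 h4 e he heC
            have h5 := hA.val φ (by omega) h4 e he (fun v hv => by
              have h6 := heC v (mem_insert_of_mem (mem_insert_of_mem hv))
              simp only [gC (G φ) _ _ v hv] at h6
              exact h6)
            have h6 := hA.out φ (by omega) h4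
            have et : e t = G φ t := by
              have h7 := heC t (mem_insert_of_mem (mem_insert_of_mem hA.mem))
              simp only [gC (G φ) _ _ t hA.mem] at h7
              exact h7
            have et1 : e t₁ = p + base + 2 - (φ - i) := by
              have h7 := heC t₁ (mem_insert_of_mem (mem_insert_self _ _))
              simp only [g1 (G φ)] at h7
              exact h7
            have et2 : e t₂ = φ - i - 1 := by
              have h7 := heC t₂ (mem_insert_self _ _)
              simp only [g2 (G φ)] at h7
              exact h7
            intro v hv
            rcases mem_insert.mp hv with h | hv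
            · rw [h]
              simp only [g2 (F φ)]
              have h8 : S c par e t₂ = e t₁ := by
                unfold S
                rw [k4, sum_singleton]
              rw [h8, et1, et2]
              omega
            rcases mem_insert.mp hv with h | hv
            · rw [h]
              simp only [g1 (F φ)]
              have h8 : S c par e t₁ = e t := by
                unfold S
                rw [j4, sum_singleton]
              rw [h8, et1, et]
              omega
            · simp only [gC (F φ) _ _ v hv]
              exact h5 v hv
          · intro φ h3 h4 u hu v hv huv
            have hr := hA.rng φ (by omega) h4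
            have hi := hA.inj φ (by omega) h4
            rcases mem_insert.mp (mem_coe.mp hu) with h | hu
            · rcases mem_insert.mp (mem_coe.mp hv) with h' | hv
              · rw [h, h']
              rcases mem_insert.mp hv with h' | hv
              · rw [h, h', g2 (F φ), g1 (F φ)] at huv
                omega
              · rw [h, g2 (F φ), gC (F φ) _ _ v hv] at huv
                have := hr v hv
                omega
            rcases mem_insert.mp hu with h | hu
            · rcases mem_insert.mp (mem_coe.mp hv) with h' | hv
              · rw [h, h', g2 (F φ), g1 (F φ)] at huv
                omega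
              rcases mem_insert.mp hv with h' | hv
              · rw [h, h']
              · rw [h, g1 (F φ), gC (F φ) _ _ v hv] at huv
                have := hr v hv
                omega
            · rcases mem_insert.mp (mem_coe.mp hv) with h' | hv
              · rw [h', g2 (F φ), gC (F φ) _ _ u hu] at huv
                have := hr u hu
                omega
              rcases mem_insert.mp hv with h' | hv
              · rw [h', g1 (F φ), gC (F φ) _ _ u hu] at huv
                have := hr u hu
                omega
              · rw [gC (F φ) _ _ u hu, gC (F φ) _ _ v hv] at huv
                exact hi hu hv huv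
          · intro φ h3 h4 v hv
            rcases mem_insert.mp hv with h | hv
            · rw [h]
              simp only [g2 (F φ)]
              omega
            rcases mem_insert.mp hv with h | hv
            · rw [h]
              simp only [g1 (F φ)]
              omega
            · simp only [gC (F φ) _ _ v hv]
              have := hA.rng φ (by omega) h4 v hv
              omega
          · intro φ h3 h4
            simp only [g2 (G φ)]
            omega
        · intro v hv
          rcases mem_insert.mp hv with h | hv
          · rw [h]
          rcases mem_insert.mp hv with h | hv
          · rw [h]; omega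
          · have := hdep v hv
            omega

end Pool.Agent.W249.IR
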