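import Pool.Agent.W249.IR.S3

/-!
# IR-B1CASE
-/

set_option autoImplicit false

namespace Pool.Agent.W249.IR

open Finset Pool.Agent.Helper999.Irr Pool.Agent.W104.Irr

variable {V : Type} [Fintype V] [DecidableEq V] {T : SimpleGraph V} {c : V} {par : V → V}
  {dep : V → ℕ}

/-- the inner vertices other than `c`, `b`, `v` -/
def P3 (c : V) (par : V → V) (b v : V) : Finset V :=
  univ.filter (fun x => x ∉ leaves c par ∧ x ≠ c ∧ x ≠ b ∧ x ≠ v)

theorem mem_P3 {b v x : V} : x ∈ P3 c par b v ↔ x ∉ leaves c par ∧ x ≠ c ∧ x ≠ b ∧ x ≠ v := by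
  unfold P3
  simp

theorem card_P3 {b v : V} (hb : b ∈ ch c par c) (hbl : b ∉ leaves c par) (hv : ch c par b = {v})
    (hvl : v ∉ leaves c par) (hbv : b ≠ v) :
    (univ \ leaves c par).card = (P3 c par b v).card + 3 := by
  have hbc : b ≠ c := (mem_ch.mp hb).1
  have hvb : v ∈ ch c par b := by rw [hv]; exact mem_singleton_self _
  have hvc : v ≠ c := (mem_ch.mp hvb).1
  have h1 : univ \ leaves c par = insert c (insert b (insert v (P3 c par b v))) := by
    ext x
    rw [mem_sdiff, mem_insert, mem_insert, mem_insert, mem_P3]
    constructor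
    · rintro ⟨-, h⟩
      by_cases h1 : x = c
      · exact Or.inl h1
      · by_cases h2 : x = b
        · exact Or.inr (Or.inl h2)
        · by_cases h3 : x = v
          · exact Or.inr (Or.inr (Or.inl h3))
          · exact Or.inr (Or.inr (Or.inr ⟨h, h1, h2, h3⟩))
    · rintro (rfl | rfl | rfl | h)
      · exact ⟨mem_univ _, root_notMem_leaves⟩
      · exact ⟨mem_univ _, hbl⟩
      · exact ⟨mem_univ _, hvl⟩
      · exact ⟨mem_univ _, h.1⟩
  rw [h1, card_insert_of_notMem, card_insert_of_notMem, card_insert_of_notMem]
  · intro h; exact (mem_P3.mp h).2.2.2 rfl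
  · intro h
    rcases mem_insert.mp h with h | h
    · exact hbv h
    · exact (mem_P3.mp h).2.2.1 rfl
  · intro h
    rcases mem_insert.mp h with h | h
    · exact hbc h.symm
    · rcases mem_insert.mp h with h | h
      · exact hvc h.symm
      · exact (mem_P3.mp h).2.1 rfl

theorem b1case (h1 : B1fin) (h3 : Labels) : B1case := by
  intro V _ _ T c par dep hR p hp3 hp hI b v hb hbl hoth hc3 hv hvl
  have hdisj : ∀ u v w : V, u ∈ ch c par v → u ∈ ch c par w → v = w := fun u v w h h' =>
    (mem_ch.mp h).2.symm.trans (mem_ch.mp h').2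
  have hbc : b ≠ c := (mem_ch.mp hb).1
  have hvb : v ∈ ch c par b := by rw [hv]; exact mem_singleton_self _
  have hvc : v ≠ c := (mem_ch.mp hvb).1
  have hbv : b ≠ v := by
    rintro rfl
    exact notMem_ch_self hR b hvb
  have hci := card_P3 hb hbl hv hvl hbv
  -- two leaves at the root
  have hc2 : 1 < ((ch c par c).erase b).card := by rw [card_erase_of_mem hb]; omega
  obtain ⟨z1, hz1, z2, hz2, hz12⟩ := one_lt_card.mp hc2
  have hzl : ∀ z ∈ (ch c par c).erase b, z ∈ leaves c par := fun z hz =>
    hoth z (mem_erase.mp hz).2 (mem_erase.mp hz).1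
  have hzc : ∀ z ∈ (ch c par c).erase b, z ∈ ch c par c := fun z hz => (mem_erase.mp hz).2
  -- the functions
  have hl : ∀ v : V, ∃ u, v ∈ AA c par → ch c par v = {u} := by
    intro v
    by_cases h : v ∈ AA c par
    · obtain ⟨u, hu⟩ := card_eq_one.mp (mem_AA.mp h).2.2.1
      exact ⟨u, fun _ => hu⟩
    · exact ⟨v, fun h' => absurd h' h⟩
  choose l hl using hl
  have hf : ∀ v : V, ∃ a b : V, v ∈ MM c par → a ∈ ch c par v ∧ b ∈ ch c par v ∧ a ≠ b := by
    intro v
    by_cases h : v ∈ MM c par
    · obtain ⟨a, ha, b, hb, hab⟩ := one_lt_card.mp (show 1 < (ch c par v).card from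
        by have := (mem_MM.mp h).2.2.1; omega)
      exact ⟨a, b, fun _ => ⟨ha, hb, hab⟩⟩
    · exact ⟨v, v, fun h' => absurd h' h⟩
  choose f1 f2 hf using hf
  obtain ⟨As, hAs⟩ : ∃ As, As = (AA c par).erase v := ⟨_, rfl⟩
  have hAA : ∀ y ∈ As, y ∈ AA c par := fun y hy => by rw [hAs] at hy; exact (mem_erase.mp hy).2
  have hlA : ∀ y ∈ As, l y ∈ ch c par y := fun y hy => by
    rw [hl y (hAA y hy)]; exact mem_singleton_self _
  have hlL : ∀ y ∈ As, l y ∈ leaves c par := fun y hy =>
    (mem_AA.mp (hAA y hy)).2.2.2 _ (hlA y hy)
  have hlinj : Set.InjOn l As := by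
    intro u hu v hv huv
    have h4 := hlA u hu
    rw [huv] at h4
    exact hdisj _ _ _ h4 (hlA v hv)
  set A := As.image l with hA
  have hAcard : A.card = As.card := card_image_of_injOn hlinj
  have hzA : ∀ z ∈ (ch c par c).erase b, z ∉ A := by
    intro z hz h
    obtain ⟨y, hy, rfl⟩ := mem_image.mp h
    exact (mem_AA.mp (hAA y hy)).1 (hdisj _ _ _ (hlA y hy) (hzc _ hz))
  have hnod : (([] : List V) ++ [] ++ [z1, z2]).Nodup := by
    simp [hz12]
  have hmem : ∀ y ∈ ([] : List V) ++ [] ++ [z1, z2], y ∈ leaves c par ∧ y ∉ A := by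
    intro y hy
    simp only [List.nil_append, List.mem_cons, List.not_mem_nil, or_false] at hy
    rcases hy with rfl | rfl
    · exact ⟨hzl _ hz1, hzA _ hz1⟩
    · exact ⟨hzl _ hz2, hzA _ hz2⟩
  have hMgen : ∀ w ∈ MM c par, ∀ y ∈ ch c par w, y ∈ leaves c par ∧ y ∉ A ∧
      y ∉ ([] : List V) ++ [] ++ [z1, z2] := by
    intro w hw y hyv
    obtain ⟨hwc, hwl, hw2, hwL⟩ := mem_MM.mp hw
    refine ⟨hwL y hyv, ?_, ?_⟩
    · intro h
      obtain ⟨w', hw', rfl⟩ := mem_image.mp h
      have := hdisj _ _ _ (hlA w' hw') hyv
      subst this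
      have := (mem_AA.mp (hAA _ hw')).2.2.1
      omega
    · intro h
      simp only [List.nil_append, List.mem_cons, List.not_mem_nil, or_false] at h
      rcases h with rfl | rfl
      · exact hwc (hdisj _ _ _ hyv (hzc _ hz1))
      · exact hwc (hdisj _ _ _ hyv (hzc _ hz2))
  obtain ⟨e0, hlab0, hinj0, -, hA0, -, hM0, hT0⟩ := h3 (leaves c par) A (MM c par) [] []
    [z1, z2] f1 f2 hnod hmem (fun y hy => by
      obtain ⟨v, hv, rfl⟩ := mem_image.mp hy
      exact hlL v hv) (fun v hv => hMgen v hv _ (hf v hv).1) (fun v hv => hMgen v hv _ (hf v hv).2.1)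
    (fun u hu v hv huv => by
      have h4 := (hf u hu).1
      rw [huv] at h4
      exact hdisj _ _ _ h4 (hf v hv).1)
    (fun u hu v hv huv => by
      have h4 := (hf u hu).2.1
      rw [huv] at h4
      exact hdisj _ _ _ h4 (hf v hv).2.1)
    (fun u hu v hv huv => by
      have h4 := (hf u hu).1
      rw [huv] at h4
      have h5 := hdisj _ _ _ h4 (hf v hv).2.1
      subst h5
      exact (hf u hu).2.2 huv)
  rw [hp] at hlab0 hM0 hT0
  have ez1 : e0 z1 = p := by
    have := hT0 0 (by simp)
    simpa using this
  have ez2 : e0 z2 + 1 = p := by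
    have := hT0 1 (by simp)
    simpa using this
  have eM : ∀ v ∈ MM c par, e0 (f1 v) + e0 (f2 v) + 2 = p + A.card + 1 := by
    intro v hv
    have := hM0 v hv
    simpa using this
  have hLL0 : LL c par p e0 := ⟨hlab0, hinj0⟩
  have hzz : ({z1, z2} : Finset V) ⊆ (ch c par c).erase b := by
    intro y hy
    simp only [mem_insert, mem_singleton] at hy
    rcases hy with rfl | rfl
    · exact hz1
    · exact hz2
  have hRbig : 2 * p ≤ Rr c par b e0 + 1 := by
    have h4 : ∑ u ∈ ({z1, z2} : Finset V), e0 u ≤ Rr c par b e0 :=
      sum_le_sum_of_subset hzz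
    rw [sum_pair hz12] at h4
    omega
  obtain ⟨R, hRdef⟩ : ∃ R, R = Rr c par b e0 := ⟨_, rfl⟩
  have hAsP : As ⊆ P3 c par b v := by
    intro y hy
    obtain ⟨hyc, hyl, hy1, hyL⟩ := mem_AA.mp (hAA y hy)
    refine mem_P3.mpr ⟨hyl, hyc, ?_, ?_⟩
    · rintro rfl
      exact hvl (hyL v hvb)
    · rw [hAs] at hy
      exact (mem_erase.mp hy).1
  have hAsc := card_le_card hAsP
  have hchP : ∀ w : V, w ≠ c → w ≠ b → ∀ u ∈ ch c par w, u ∈ leaves c par ∨ u ∈ P3 c par b v := by
    intro w hwc hwb u hu
    by_cases h : u ∈ leaves c par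
    · exact Or.inl h
    · refine Or.inr (mem_P3.mpr ⟨h, (mem_ch.mp hu).1, ?_, ?_⟩)
      · rintro rfl
        exact hwc (hdisj _ _ _ hu hb)
      · rintro rfl
        exact hwb (hdisj _ _ _ hu hvb)
  have hRes : ∀ t ∈ ({R, R - 1} : Finset ℕ), p < t := by
    intro t ht
    simp only [mem_insert, mem_singleton] at ht
    rcases ht with rfl | rfl <;> omega
  have hRcard : ({R, R - 1} : Finset ℕ).card ≤ 2 := card_le_two
  have hRcard1 : 1 ≤ ({R, R - 1} : Finset ℕ).card := card_pos.mpr ⟨R, mem_insert_self _ _⟩
  -- initial state
  have st0 := init_closed (c := c) (par := par) (p := p) (ε := 0) (b := 0) (q := p)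
    (Res := {R, R - 1}) (As := As) (l := l) (lam := e0)
    (fun v hv => ⟨(mem_AA.mp (hAA v hv)).1, (mem_AA.mp (hAA v hv)).2.1, hl v (hAA v hv),
      hlL v hv⟩)
    (fun v hv => by
      have h4 := hA0 (l v) (mem_image_of_mem l hv)
      simp only [List.length_nil] at h4
      rw [← hAcard]
      omega)
    hLL0 (by omega) hRes (by omega) le_rfl
  set e1 : V → ℕ := fun y => if y ∈ As then p - 0 else e0 y with he1
  set Q := P3 c par b v \ As with hQ
  have hUQ : As ∪ Q = P3 c par b v := union_sdiff_of_subset hAsP
  have hQcard : As.card + Q.card = (P3 c par b v).card := by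
    rw [hQ, card_sdiff_of_subset hAsP]; omega
  have hAsnl : ∀ v ∈ As, v ∉ leaves c par := fun v hv => (mem_AA.mp (hAA v hv)).2.1
  have he1l : ∀ v ∈ leaves c par, e1 v = e0 v := by
    intro v hv
    rw [he1]
    exact if_neg fun h => hAsnl v h hv
  obtain ⟨e', sl', a', f', st, he', hsl', haa, hff, hall, hlast⟩ :=
    greedy hR (q := p) (b := 0) (Res := {R, R - 1}) le_rfl hRes (Q := Q) (P := As) st0
      (by
        rw [disjoint_left]
        intro v hv hv'
        exact (mem_sdiff.mp hv).2 hv')
      (fun w hw => by
        have := mem_P3.mp (mem_sdiff.mp hw).1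
        exact ⟨this.2.1, this.1⟩)
      (fun w hw u hu => by
        have h0 := mem_P3.mp (mem_sdiff.mp hw).1
        rcases hchP w h0.2.1 h0.2.2.1 u hu with h | h
        · exact Or.inl h
        · by_cases h' : u ∈ As
          · exact Or.inr (Or.inl h')
          · exact Or.inr (Or.inr (mem_sdiff.mpr ⟨h, h'⟩)))
      (fun w hw hr => by
        obtain ⟨hwP, hwA⟩ := mem_sdiff.mp hw
        obtain ⟨hwl, hwc, hwb, hwv⟩ := mem_P3.mp hwP
        by_cases hall : ∀ u ∈ ch c par w, u ∈ leaves c par
        · right
          have hw1 := ch_pos hwc hwl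
          have hw2 : 2 ≤ (ch c par w).card := by
            by_contra hcon
            apply hwA
            rw [hAs]
            exact mem_erase.mpr ⟨hwv, mem_AA.mpr ⟨hwc, hwl, by omega, hall⟩⟩
          have hwM : w ∈ MM c par := mem_MM.mpr ⟨hwc, hwl, hw2, hall⟩
          obtain ⟨g1, g2, g3⟩ := hf w hwM
          have h5 : ∑ u ∈ ({f1 w, f2 w} : Finset V), e1 u ≤ S c par e1 w := by
            refine sum_le_sum_of_subset ?_
            intro y hy
            simp only [mem_insert, mem_singleton] at hy
            rcases hy with rfl | rfl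
            · exact g1
            · exact g2
          rw [sum_pair g3, he1l _ (hall _ g1), he1l _ (hall _ g2)] at h5
          have h6 := eM w hwM
          exact ⟨by omega, hRcard1⟩
        · left
          push Not at hall
          obtain ⟨u, hu, hul⟩ := hall
          rcases hr u hu with h | h
          · exact absurd h hul
          · have h5 : e1 u ≤ S c par e1 w :=
              single_le_sum (f := e1) (fun _ _ => Nat.zero_le _) hu
            have h6 : e1 u = p - 0 := if_pos h
            omega)
      (by omega)
  rw [hUQ] at st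
  have he'l : ∀ v ∈ leaves c par, e' v = e0 v := by
    intro v hv
    rw [he' v (fun h => (mem_P3.mp (mem_sdiff.mp h).1).1 hv), he1l v hv]
  have hRe' : Rr c par b e' = R := by
    rw [hRdef]
    unfold Rr
    exact sum_congr rfl fun u hu => he'l u (hzl u hu)
  -- counting
  have hcnt := st.cnt
  have htc := top_card st
  have hfq := st.fq
  have hUa : (top p (P3 c par b v) sl').card + a' + 2 ≤ f' := by omega
  -- the sum at v
  have hσ : a' + 1 ≤ S c par e' v := by
    rcases Q.eq_empty_or_nonempty with hQe | hQn
    · by_cases hallv : ∀ u ∈ ch c par v, u ∈ leaves c par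
      · have hv1 := ch_pos hvc hvl
        by_cases hv2 : 2 ≤ (ch c par v).card
        · have hvM : v ∈ MM c par := mem_MM.mpr ⟨hvc, hvl, hv2, hallv⟩
          obtain ⟨g1, g2, g3⟩ := hf v hvM
          have h5 : ∑ u ∈ ({f1 v, f2 v} : Finset V), e' u ≤ S c par e' v := by
            refine sum_le_sum_of_subset ?_
            intro y hy
            simp only [mem_insert, mem_singleton] at hy
            rcases hy with rfl | rfl
            · exact g1
            · exact g2
          rw [sum_pair g3, he'l _ (hallv _ g1), he'l _ (hallv _ g2)] at h5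
          have h6 := eM v hvM
          omega
        · -- `v` has one child, a leaf
          have hAe : As = ∅ := by
            by_contra hne
            obtain ⟨y, hy⟩ := nonempty_iff_ne_empty.mpr hne
            -- the topmost vertex above `y`
            have hyP := hAsP hy
            obtain ⟨hyl, hyc, hyb, hyv⟩ := mem_P3.mp hyP
            have hyp : y ∈ ch c par (par y) := mem_ch.mpr ⟨hyc, rfl⟩
            have hpl : par y ∉ leaves c par := by
              intro h
              rw [(mem_leaves.mp h).2] at hyp
              exact absurd hyp (notMem_empty y)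
            by_cases h1 : par y = c
            · rw [h1] at hyp
              exact hyl (hoth y hyp hyb)
            · by_cases h2 : par y = b
              · rw [h2, hv] at hyp
                exact hyv (mem_singleton.mp hyp)
              · by_cases h4 : par y = v
                · rw [h4] at hyp
                  exact hyl (hallv y hyp)
                · have h5 : par y ∈ P3 c par b v := mem_P3.mpr ⟨hpl, h1, h2, h4⟩
                  have h6 : par y ∈ As := by
                    by_contra h
                    have : par y ∈ Q := mem_sdiff.mpr ⟨h5, h⟩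
                    rw [hQe] at this
                    exact absurd this (notMem_empty _)
                  exact hyl ((mem_AA.mp (hAA _ h6)).2.2.2 y hyp)
          have hPe : P3 c par b v = ∅ := by
            rw [← hUQ, hAe, hQe, empty_union]
          obtain ⟨u, hu⟩ : (ch c par v).Nonempty := card_pos.mp (by omega)
          have h5 : e' u ≤ S c par e' v := single_le_sum (f := e') (fun _ _ => Nat.zero_le _) hu
          have h6 := (hlab0 u (hallv u hu)).1
          rw [← he'l u (hallv u hu)] at h6
          have h7 : (P3 c par b v).card = 0 := by rw [hPe, card_empty]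
          have h8 : (filter (fun v => p < sl' v) (P3 c par b v)).card = 0 := by
            rw [hPe, filter_empty, card_empty]
          omega
      · push Not at hallv
        obtain ⟨u, hu, hul⟩ := hallv
        have huP : u ∈ P3 c par b v := by
          rcases hchP v hvc hbv.symm u hu with h | h
          · exact absurd h hul
          · exact h
        have huA : u ∈ As := by
          by_contra h
          have : u ∈ Q := mem_sdiff.mpr ⟨huP, h⟩
          rw [hQe] at this
          exact absurd this (notMem_empty u)
        have h5 : e' u ≤ S c par e' v := single_le_sum (f := e') (fun _ _ => Nat.zero_le _) hu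
        have h6 : e' u = p - 0 := by
          rw [he' u (by rw [hQe]; exact notMem_empty u)]
          exact if_pos huA
        omega
    · obtain ⟨u, hu, hpu, hau⟩ := hlast hQn
      obtain ⟨huP, huA⟩ := mem_sdiff.mp hu
      obtain ⟨hul, huc, hub, huv⟩ := mem_P3.mp huP
      have hup : u ∈ ch c par (par u) := mem_ch.mpr ⟨huc, rfl⟩
      have hpx : par u = v := by
        by_contra hne
        by_cases hpc : par u = c
        · rw [hpc] at hup
          exact hul (hoth u hup hub)
        · have hpl : par u ∉ leaves c par := by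
            intro h
            rw [(mem_leaves.mp h).2] at hup
            exact absurd hup (notMem_empty u)
          by_cases hpb : par u = b
          · rw [hpb, hv] at hup
            exact huv (mem_singleton.mp hup)
          · have hpA : par u ∉ As := by
              intro h
              exact hul ((mem_AA.mp (hAA _ h)).2.2.2 u hup)
            exact hpu (mem_sdiff.mpr ⟨mem_P3.mpr ⟨hpl, hpc, hpb, hne⟩, hpA⟩)
      rw [hpx] at hup
      have h5 : e' u ≤ S c par e' v := single_le_sum (f := e') (fun _ _ => Nat.zero_le _) hup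
      omega
  obtain ⟨β, α, X, Y, Z, hβ1, hβ2, hα1, hα2, hX, hY, hZ, hX', hY', hZ', hXY, hXZ, hYZ⟩ :=
    h1 p a' f' R (S c par e' v) (top p (P3 c par b v) sl') hp3 (by omega) hfq hUa
      (fun t ht => by
        obtain ⟨w, hw, h4, h5⟩ := mem_top.mp ht
        exact h4)
      (by omega)
      (fun h => by
        obtain ⟨w, hw, h4, h5⟩ := mem_top.mp h
        exact st.res w hw (by rw [h5]; exact mem_insert_self _ _))
      (fun h => by
        obtain ⟨w, hw, h4, h5⟩ := mem_top.mp h
        exact st.res w hw (by rw [h5]; exact mem_insert_of_mem (mem_singleton_self _)))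
      hσ
  have hnew : ∀ t : ℕ, ((a' < t ∧ t ≤ f') ∨ (p < t ∧ t ∉ top p (P3 c par b v) sl')) →
      1 ≤ t ∧ ∀ w ∈ P3 c par b v, sl' w ≠ t := by
    rintro t (⟨h4, h5⟩ | ⟨h4, h5⟩)
    · exact ⟨by omega, free_mid st le_rfl h4 h5⟩
    · exact ⟨by omega, fun w hw h6 => h5 (mem_top.mpr ⟨w, hw, h4, h6⟩)⟩
  obtain ⟨hX1, hXn⟩ := hnew X hX'
  obtain ⟨hY1, hYn⟩ := hnew Y (Or.inl hY')
  obtain ⟨hZ1, hZn⟩ := hnew Z hZ'
  have hvl' : v ∉ leaves c par := hvl
  set e'' := Function.update (Function.update e' v β) b α with he''
  have eb : e'' b = α := by rw [he'', Function.update_self]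
  have ev : e'' v = β := by rw [he'', Function.update_of_ne hbv.symm, Function.update_self]
  have eo : ∀ w, w ≠ b → w ≠ v → e'' w = e' w := fun w hwb hwv => by
    rw [he'', Function.update_of_ne hwb, Function.update_of_ne hwv]
  have hSo : ∀ w, w ≠ c → w ≠ b → S c par e'' w = S c par e' w := by
    intro w hwc hwb
    refine S_congr fun u hu => eo u ?_ ?_
    · rintro rfl; exact hwc (hdisj _ _ _ hu hb)
    · rintro rfl; exact hwb (hdisj _ _ _ hu hvb)
  refine fin_lab (e := e'')
    (sl := fun w => if w = v then X else if w = b then Y else if w = c then Z else sl' w)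
    ⟨fun w hw => ?_, fun u hu w hw huw => ?_⟩ ?_ ?_ ?_ ?_ ?_
  · rw [eo w (by rintro rfl; exact hbl hw) (by rintro rfl; exact hvl hw), he'l w hw]
    exact hlab0 w hw
  · rw [eo w (by rintro rfl; exact hbl hw) (by rintro rfl; exact hvl hw), he'l w hw,
      eo u (by rintro rfl; exact hbl hu) (by rintro rfl; exact hvl hu), he'l u hu] at huw
    exact hinj0 hu hw huw
  · intro w hwc hwl
    by_cases h : w = v
    · rw [h, ev]; exact ⟨hβ1, hβ2⟩
    · by_cases h' : w = b
      · rw [h', eb]; exact ⟨hα1, hα2⟩
      · rw [eo w h' h]
        exact st.lab w (mem_P3.mpr ⟨hwl, hwc, h', h⟩)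
  · intro w hwc hwl
    by_cases h : w = v
    · rw [h, ev, hSo v hvc hbv.symm, if_pos rfl]
      exact hX
    · by_cases h' : w = b
      · rw [h', eb, if_neg hbv, if_pos rfl]
        have : S c par e'' b = β := by
          unfold S
          rw [hv, sum_singleton, ev]
        rw [this]
        exact hY
      · rw [eo w h' h, hSo w hwc h', if_neg h, if_neg h', if_neg hwc]
        exact st.val w (mem_P3.mpr ⟨hwl, hwc, h', h⟩)
  · rw [S_root hb, eb, if_neg hvc.symm, if_neg hbc.symm, if_pos rfl]
    have : Rr c par b e'' = R := by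
      rw [← hRe']
      unfold Rr
      refine sum_congr rfl fun u hu => eo u (mem_erase.mp hu).1 ?_
      rintro rfl
      exact hvl (hzl _ hu)
    rw [this]
    omega
  · intro w hwl
    by_cases h : w = v
    · rw [if_pos h]; exact hX1
    · by_cases h' : w = b
      · rw [if_neg h, if_pos h']; exact hY1
      · by_cases h'' : w = c
        · rw [if_neg h, if_neg h', if_pos h'']; exact hZ1
        · rw [if_neg h, if_neg h', if_neg h'']
          exact st.one w (mem_P3.mpr ⟨hwl, h'', h', h⟩)
  · have key : ∀ u w : V, u ∉ leaves c par → w ∉ leaves c par →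
        (if u = v then X else if u = b then Y else if u = c then Z else sl' u) =
        (if w = v then X else if w = b then Y else if w = c then Z else sl' w) →
        u = w := by
      intro u w hul hwl huw
      have gen : ∀ y : V, y ∉ leaves c par → y ≠ v → y ≠ b → y ≠ c → y ∈ P3 c par b v :=
        fun y h k1 k2 k3 => mem_P3.mpr ⟨h, k3, k2, k1⟩
      by_cases u1 : u = v
      · by_cases w1 : w = v
        · rw [u1, w1]
        · rw [if_pos u1, if_neg w1] at huw
          by_cases w2 : w = b
          · rw [if_pos w2] at huw; exact absurd huw hXY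
          · rw [if_neg w2] at huw
            by_cases w3 : w = c
            · rw [if_pos w3] at huw; exact absurd huw hXZ
            · rw [if_neg w3] at huw
              exact absurd huw.symm (hXn w (gen w hwl w1 w2 w3))
      · rw [if_neg u1] at huw
        by_cases u2 : u = b
        · rw [if_pos u2] at huw
          by_cases w1 : w = v
          · rw [if_pos w1] at huw; exact absurd huw.symm hXY
          · rw [if_neg w1] at huw
            by_cases w2 : w = b
            · rw [u2, w2]
            · rw [if_neg w2] at huw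
              by_cases w3 : w = c
              · rw [if_pos w3] at huw; exact absurd huw hYZ
              · rw [if_neg w3] at huw
                exact absurd huw.symm (hYn w (gen w hwl w1 w2 w3))
        · rw [if_neg u2] at huw
          by_cases u3 : u = c
          · rw [if_pos u3] at huw
            by_cases w1 : w = v
            · rw [if_pos w1] at huw; exact absurd huw.symm hXZ
            · rw [if_neg w1] at huw
              by_cases w2 : w = b
              · rw [if_pos w2] at huw; exact absurd huw.symm hYZ
              · rw [if_neg w2] at huw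
                by_cases w3 : w = c
                · rw [u3, w3]
                · rw [if_neg w3] at huw
                  exact absurd huw.symm (hZn w (gen w hwl w1 w2 w3))
          · rw [if_neg u3] at huw
            have huP := gen u hul u1 u2 u3
            by_cases w1 : w = v
            · rw [if_pos w1] at huw; exact absurd huw (hXn u huP)
            · rw [if_neg w1] at huw
              by_cases w2 : w = b
              · rw [if_pos w2] at huw; exact absurd huw (hYn u huP)
              · rw [if_neg w2] at huw
                by_cases w3 : w = c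
                · rw [if_pos w3] at huw; exact absurd huw (hZn u huP)
                · rw [if_neg w3] at huw
                  exact st.inj huP (gen w hwl w1 w2 w3) huw
    exact key

end Pool.Agent.W249.IR
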