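import Pool.Agent.W249.IR.S3a

/-!
# IR-S3CASE
-/

set_option autoImplicit false

namespace Pool.Agent.W249.IR

open Finset Pool.Agent.Helper999.Irr Pool.Agent.W104.Irr

variable {V : Type} [Fintype V] [DecidableEq V] {T : SimpleGraph V} {c : V} {par : V → V}
  {dep : V → ℕ}

/-- the inner vertices with at least two children, all of them leaves -/
def MM (c : V) (par : V → V) : Finset V :=
  univ.filter (fun v => v ≠ c ∧ v ∉ leaves c par ∧ 2 ≤ (ch c par v).card ∧
    ∀ u ∈ ch c par v, u ∈ leaves c par)

/-- the inner vertices with one child, a leaf -/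
def AA (c : V) (par : V → V) : Finset V :=
  univ.filter (fun v => v ≠ c ∧ v ∉ leaves c par ∧ (ch c par v).card = 1 ∧
    ∀ u ∈ ch c par v, u ∈ leaves c par)

theorem mem_MM {v : V} : v ∈ MM c par ↔ v ≠ c ∧ v ∉ leaves c par ∧ 2 ≤ (ch c par v).card ∧
    ∀ u ∈ ch c par v, u ∈ leaves c par := by
  unfold MM; simp

theorem mem_AA {v : V} : v ∈ AA c par ↔ v ≠ c ∧ v ∉ leaves c par ∧ (ch c par v).card = 1 ∧
    ∀ u ∈ ch c par v, u ∈ leaves c par := by
  unfold AA; simp

theorem setup (h1 : S3fin) (h3 : Labels) (hR : Rooted T c par dep) {p : ℕ} (hp3 : 3 ≤ p)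
    (hp : (leaves c par).card = p) (hI : (univ \ leaves c par).card ≤ p + 1) {x : V}
    (hx : x ∈ ch c par c) (hxl : x ∉ leaves c par)
    (hoth : ∀ u ∈ ch c par c, u ≠ x → u ∈ leaves c par) (hc4 : 4 ≤ (ch c par c).card)
    (hxi : ∃ u ∈ ch c par x, u ∉ leaves c par) {s : V} (hsl : s ∈ leaves c par)
    (hsc : s ∉ ch c par c) (hsA : ∀ v ∈ AA c par, s ∉ ch c par v)
    (hs : ∀ v ∈ MM c par, 2 ≤ ((ch c par v).erase s).card) :
    Lab c par p ∨ ∃ e sl : V → ℕ, FS c par p x e sl ∧ 3 * p ≤ Rr c par x e + 3 ∧
      p ≤ S c par e x ∧ (∃ z ∈ (ch c par c).erase x, e s < e z) ∧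
      ∀ v ∈ MM c par, ∃ a ∈ (ch c par v).erase s, ∃ b ∈ (ch c par v).erase s, a ≠ b ∧
        p ≤ e a + e b + 1 := by
  have hxc : x ≠ c := (mem_ch.mp hx).1
  -- three leaves at the root
  have hc3 : 2 < ((ch c par c).erase x).card := by rw [card_erase_of_mem hx]; omega
  obtain ⟨z1, z2, z3, hz1, hz2, hz3, hz12, hz13, hz23⟩ := two_lt_card_iff.mp hc3
  have hzl : ∀ z ∈ (ch c par c).erase x, z ∈ leaves c par := fun z hz =>
    hoth z (mem_erase.mp hz).2 (mem_erase.mp hz).1
  have hzc : ∀ z ∈ (ch c par c).erase x, z ∈ ch c par c := fun z hz => (mem_erase.mp hz).2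
  -- disjointness of children sets
  have hdisj : ∀ u v w : V, u ∈ ch c par v → u ∈ ch c par w → v = w := fun u v w h h' =>
    (mem_ch.mp h).2.symm.trans (mem_ch.mp h').2
  -- the functions
  have hl : ∀ v : V, ∃ u, v ∈ AA c par → ch c par v = {u} := by
    intro v
    by_cases h : v ∈ AA c par
    · obtain ⟨u, hu⟩ := card_eq_one.mp (mem_AA.mp h).2.2.1
      exact ⟨u, fun _ => hu⟩
    · exact ⟨v, fun h' => absurd h' h⟩
  choose l hl using hl
  have hf : ∀ v : V, ∃ a b : V, v ∈ MM c par → a ∈ (ch c par v).erase s ∧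
      b ∈ (ch c par v).erase s ∧ a ≠ b := by
    intro v
    by_cases h : v ∈ MM c par
    · obtain ⟨a, ha, b, hb, hab⟩ := one_lt_card.mp (show 1 < ((ch c par v).erase s).card from
        by have := hs v h; omega)
      exact ⟨a, b, fun _ => ⟨ha, hb, hab⟩⟩
    · exact ⟨v, v, fun h' => absurd h' h⟩
  choose f1 f2 hf using hf
  set As := AA c par with hAs
  have hlA : ∀ v ∈ As, l v ∈ ch c par v := fun v hv => by rw [hl v hv]; exact mem_singleton_self _
  have hlL : ∀ v ∈ As, l v ∈ leaves c par := fun v hv => (mem_AA.mp hv).2.2.2 _ (hlA v hv)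
  have hlinj : Set.InjOn l As := by
    intro u hu v hv huv
    have h4 := hlA u hu
    rw [huv] at h4
    exact hdisj _ _ _ h4 (hlA v hv)
  set A := As.image l with hA
  have hAcard : A.card = As.card := card_image_of_injOn hlinj
  have hsA' : s ∉ A := by
    intro h
    obtain ⟨v, hv, rfl⟩ := mem_image.mp h
    exact hsA v hv (hlA v hv)
  have hzA : ∀ z ∈ (ch c par c).erase x, z ∉ A := by
    intro z hz h
    obtain ⟨v, hv, rfl⟩ := mem_image.mp h
    exact (mem_AA.mp hv).1 (hdisj _ _ _ (hlA v hv) (hzc _ hz))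
  have hsz : ∀ z ∈ (ch c par c).erase x, s ≠ z := by
    rintro z hz rfl
    exact hsc (hzc _ hz)
  have hnod : (([] : List V) ++ [s] ++ [z1, z2, z3]).Nodup := by
    simp only [List.nil_append, List.singleton_append, List.nodup_cons, List.mem_cons,
      List.not_mem_nil, or_false, not_or, not_false_eq_true, List.nodup_nil, and_true]
    exact ⟨⟨hsz _ hz1, hsz _ hz2, hsz _ hz3⟩, ⟨hz12, hz13⟩, hz23⟩
  have hmem : ∀ y ∈ ([] : List V) ++ [s] ++ [z1, z2, z3], y ∈ leaves c par ∧ y ∉ A := by
    intro y hy
    simp only [List.nil_append, List.singleton_append, List.mem_cons,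
      List.not_mem_nil, or_false] at hy
    rcases hy with rfl | rfl | rfl | rfl
    · exact ⟨hsl, hsA'⟩
    · exact ⟨hzl _ hz1, hzA _ hz1⟩
    · exact ⟨hzl _ hz2, hzA _ hz2⟩
    · exact ⟨hzl _ hz3, hzA _ hz3⟩
  have hMgen : ∀ v ∈ MM c par, ∀ y ∈ (ch c par v).erase s, y ∈ leaves c par ∧ y ∉ A ∧
      y ∉ ([] : List V) ++ [s] ++ [z1, z2, z3] := by
    intro v hv y hy
    obtain ⟨hvc, hvl, hv2, hvL⟩ := mem_MM.mp hv
    obtain ⟨hys, hyv⟩ := mem_erase.mp hy
    refine ⟨hvL y hyv, ?_, ?_⟩
    · intro h
      obtain ⟨w, hw, rfl⟩ := mem_image.mp h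
      have := hdisj _ _ _ (hlA w hw) hyv
      subst this
      have := (mem_AA.mp hw).2.2.1
      omega
    · intro h
      simp only [List.nil_append, List.singleton_append, List.mem_cons,
        List.not_mem_nil, or_false] at h
      rcases h with rfl | rfl | rfl | rfl
      · exact hys rfl
      · exact hvc (hdisj _ _ _ hyv (hzc _ hz1))
      · exact hvc (hdisj _ _ _ hyv (hzc _ hz2))
      · exact hvc (hdisj _ _ _ hyv (hzc _ hz3))
  obtain ⟨e0, hlab0, hinj0, -, hA0, hX0, hM0, hT0⟩ := h3 (leaves c par) A (MM c par) [] [s]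
    [z1, z2, z3] f1 f2 hnod hmem (fun y hy => by
      obtain ⟨v, hv, rfl⟩ := mem_image.mp hy
      exact hlL v hv) (fun v hv => hMgen v hv _ (hf v hv).1) (fun v hv => hMgen v hv _ (hf v hv).2.1)
    (fun u hu v hv huv => by
      have h4 := (mem_erase.mp (hf u hu).1).2
      rw [huv] at h4
      exact hdisj _ _ _ h4 (mem_erase.mp (hf v hv).1).2)
    (fun u hu v hv huv => by
      have h4 := (mem_erase.mp (hf u hu).2.1).2
      rw [huv] at h4
      exact hdisj _ _ _ h4 (mem_erase.mp (hf v hv).2.1).2)
    (fun u hu v hv huv => by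
      have h4 := (mem_erase.mp (hf u hu).1).2
      rw [huv] at h4
      have h5 := hdisj _ _ _ h4 (mem_erase.mp (hf v hv).2.1).2
      subst h5
      exact (hf u hu).2.2 huv)
  rw [hp] at hlab0 hM0 hT0
  have es : e0 s = A.card + 1 := by
    have := hX0 0 (by simp)
    simpa using this
  have ez1 : e0 z1 = p := by
    have := hT0 0 (by simp)
    simpa using this
  have ez2 : e0 z2 + 1 = p := by
    have := hT0 1 (by simp)
    simpa using this
  have ez3 : e0 z3 + 2 = p := by
    have := hT0 2 (by simp)
    simpa using this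
  have eM : ∀ v ∈ MM c par, e0 (f1 v) + e0 (f2 v) + 3 = p + A.card + 1 + 1 := by
    intro v hv
    have := hM0 v hv
    simpa using this
  have hLL0 : LL c par p e0 := ⟨hlab0, hinj0⟩
  -- the sum at the root
  have hzz : ({z1, z2, z3} : Finset V) ⊆ (ch c par c).erase x := by
    intro y hy
    simp only [mem_insert, mem_singleton] at hy
    rcases hy with rfl | rfl | rfl
    · exact hz1
    · exact hz2
    · exact hz3
  have hRbig : 3 * p ≤ Rr c par x e0 + 3 := by
    have h4 : ∑ u ∈ ({z1, z2, z3} : Finset V), e0 u ≤ Rr c par x e0 :=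
      sum_le_sum_of_subset hzz
    rw [sum_insert (by simp [hz12, hz13]), sum_insert (by simp [hz23]), sum_singleton] at h4
    omega
  obtain ⟨R, hRdef⟩ : ∃ R, R = Rr c par x e0 := ⟨_, rfl⟩
  -- card of the inner vertices
  have hci := card_inner hx hxl
  have hAsP : As ⊆ PP c par x := by
    intro v hv
    obtain ⟨hvc, hvl, hv1, hvL⟩ := mem_AA.mp hv
    refine mem_PP.mpr ⟨hvl, hvc, ?_⟩
    rintro rfl
    obtain ⟨u, hu, hul⟩ := hxi
    exact hul (hvL u hu)
  have hAsc := card_le_card hAsP
  -- initial state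
  have st0 := init_closed (c := c) (par := par) (p := p) (ε := 0) (b := 0) (q := p) (Res := {R})
    (As := As) (l := l) (lam := e0)
    (fun v hv => ⟨(mem_AA.mp hv).1, (mem_AA.mp hv).2.1, hl v hv, hlL v hv⟩)
    (fun v hv => by
      have h4 := hA0 (l v) (mem_image_of_mem l hv)
      simp only [List.length_nil] at h4
      rw [← hAcard]
      omega)
    hLL0 (by omega) (fun t ht => by rw [mem_singleton.mp ht]; omega) (by omega) le_rfl
  set e1 : V → ℕ := fun y => if y ∈ As then p - 0 else e0 y with he1
  set Q := PP c par x \ As with hQ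
  have hUQ : As ∪ Q = PP c par x := union_sdiff_of_subset hAsP
  have hQcard : As.card + Q.card = (PP c par x).card := by
    rw [hQ, card_sdiff_of_subset hAsP]; omega
  have hAsnl : ∀ v ∈ As, v ∉ leaves c par := fun v hv => (mem_AA.mp hv).2.1
  have he1l : ∀ v ∈ leaves c par, e1 v = e0 v := by
    intro v hv
    rw [he1]
    exact if_neg fun h => hAsnl v h hv
  obtain ⟨e', sl', a', f', st, he', hsl', haa, hff, hall, hlast⟩ :=
    greedy hR (q := p) (b := 0) (Res := {R}) le_rfl
      (fun t ht => by rw [mem_singleton.mp ht]; omega) (Q := Q) (P := As) st0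
      (by
        rw [disjoint_left]
        intro v hv hv'
        exact (mem_sdiff.mp hv).2 hv')
      (fun v hv => by
        have := mem_PP.mp (mem_sdiff.mp hv).1
        exact ⟨this.2.1, this.1⟩)
      (fun v hv u hu => by
        rcases ch_PP hx (mem_PP.mp (mem_sdiff.mp hv).1).2.1 hu with h | h
        · exact Or.inl h
        · by_cases h' : u ∈ As
          · exact Or.inr (Or.inl h')
          · exact Or.inr (Or.inr (mem_sdiff.mpr ⟨h, h'⟩)))
      (fun v hv hr => by
        obtain ⟨hvP, hvA⟩ := mem_sdiff.mp hv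
        obtain ⟨hvl, hvc, hvx⟩ := mem_PP.mp hvP
        by_cases hall : ∀ u ∈ ch c par v, u ∈ leaves c par
        · right
          have hv1 := ch_pos hvc hvl
          have hv2 : 2 ≤ (ch c par v).card := by
            by_contra hcon
            exact hvA (mem_AA.mpr ⟨hvc, hvl, by omega, hall⟩)
          have hvM : v ∈ MM c par := mem_MM.mpr ⟨hvc, hvl, hv2, hall⟩
          obtain ⟨g1, g2, g3⟩ := hf v hvM
          have g1' := (mem_erase.mp g1).2
          have g2' := (mem_erase.mp g2).2
          have h5 : ∑ u ∈ ({f1 v, f2 v} : Finset V), e1 u ≤ S c par e1 v := by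
            refine sum_le_sum_of_subset ?_
            intro y hy
            simp only [mem_insert, mem_singleton] at hy
            rcases hy with rfl | rfl
            · exact g1'
            · exact g2'
          rw [sum_pair g3, he1l _ (hall _ g1'), he1l _ (hall _ g2')] at h5
          have h6 := eM v hvM
          refine ⟨by omega, by simp⟩
        · left
          push Not at hall
          obtain ⟨u, hu, hul⟩ := hall
          rcases hr u hu with h | h
          · exact absurd h hul
          · have h5 : e1 u ≤ S c par e1 v :=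
              single_le_sum (f := e1) (fun _ _ => Nat.zero_le _) hu
            have h6 : e1 u = p - 0 := if_pos h
            omega)
      (by
        rw [card_singleton]
        omega)
  rw [hUQ] at st
  have he'l : ∀ v ∈ leaves c par, e' v = e0 v := by
    intro v hv
    rw [he' v (fun h => (mem_PP.mp (mem_sdiff.mp h).1).1 hv), he1l v hv]
  have hRe' : Rr c par x e' = R := by
    rw [hRdef]
    unfold Rr
    exact sum_congr rfl fun u hu => he'l u (hzl u hu)
  have hfs : FS c par p x e' sl' := by
    refine ⟨⟨fun v hv => ?_, fun u hu v hv huv => ?_⟩, fun v hv => st.lab v hv,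
      fun v hv => st.val v hv, fun v hv => st.one v hv, st.inj⟩
    · rw [he'l v hv]; exact hlab0 v hv
    · rw [he'l u hu, he'l v hv] at huv
      exact hinj0 hu hv huv
  -- counting
  have hcnt := st.cnt
  have htc := top_card st
  have hfq := st.fq
  have hUa : (top p (PP c par x) sl').card + a' + 1 ≤ f' := by omega
  -- the sum at x
  have hσ : a' + 1 ≤ S c par e' x := by
    rcases Q.eq_empty_or_nonempty with hQe | hQn
    · obtain ⟨u, hu, hul⟩ := hxi
      have huP : u ∈ PP c par x := by
        rcases ch_PP hx hxc hu with h | h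
        · exact absurd h hul
        · exact h
      have huA : u ∈ As := by
        by_contra h
        have : u ∈ Q := mem_sdiff.mpr ⟨huP, h⟩
        rw [hQe] at this
        exact absurd this (notMem_empty u)
      have h5 : e' u ≤ S c par e' x := single_le_sum (f := e') (fun _ _ => Nat.zero_le _) hu
      have h6 : e' u = p - 0 := by
        rw [he' u (by rw [hQe]; exact notMem_empty u)]
        exact if_pos huA
      omega
    · obtain ⟨u, hu, hpu, hau⟩ := hlast hQn
      obtain ⟨huP, huA⟩ := mem_sdiff.mp hu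
      obtain ⟨hul, huc, hux⟩ := mem_PP.mp huP
      have hup : u ∈ ch c par (par u) := mem_ch.mpr ⟨huc, rfl⟩
      have hpx : par u = x := by
        by_contra hne
        by_cases hpc : par u = c
        · rw [hpc] at hup
          exact hul (hoth u hup hux)
        · have hpl : par u ∉ leaves c par := by
            intro h
            rw [(mem_leaves.mp h).2] at hup
            exact absurd hup (notMem_empty u)
          have hpA : par u ∉ As := by
            intro h
            exact hul ((mem_AA.mp h).2.2.2 u hup)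
          exact hpu (mem_sdiff.mpr ⟨mem_PP.mpr ⟨hpl, hpc, hne⟩, hpA⟩)
      rw [hpx] at hup
      have h5 : e' u ≤ S c par e' x := single_le_sum (f := e') (fun _ _ => Nat.zero_le _) hup
      omega
  by_cases hσp : S c par e' x < p
  · left
    obtain ⟨α, X, Z, hα1, hα2, hX, hZ, haX, hXf, hpZ, hZU⟩ := h1 p a' f' R (S c par e' x)
      (top p (PP c par x) sl') hp3 (by omega) hfq hUa
      (by omega)
      (fun h => by
        obtain ⟨v, hv, h4, h5⟩ := mem_top.mp h
        exact st.res v hv (by rw [h5]; exact mem_singleton_self _))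
      hσ hσp
    refine fs_fin hfs hx hxl hα1 hα2 hX (by rw [hRe']; exact hZ) (by omega) (by omega) (by omega)
      ?_ ?_
    · exact free_mid st le_rfl haX hXf
    · intro v hv h4
      exact hZU (mem_top.mpr ⟨v, hv, hpZ, h4⟩)
  · right
    refine ⟨e', sl', hfs, by rw [hRe']; omega, by omega, ⟨z1, hz1, ?_⟩, ?_⟩
    · rw [he'l s hsl, he'l z1 (hzl z1 hz1), es, ez1]
      have h4 := (hlab0 s hsl).2
      rw [es] at h4
      have h5 : e0 s ≠ e0 z1 := fun h => hsz z1 hz1 (hinj0 hsl (hzl z1 hz1) h)
      rw [es, ez1] at h5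
      omega
    · intro v hv
      obtain ⟨g1, g2, g3⟩ := hf v hv
      refine ⟨f1 v, g1, f2 v, g2, g3, ?_⟩
      have hvL := (mem_MM.mp hv).2.2.2
      rw [he'l _ (hvL _ (mem_erase.mp g1).2), he'l _ (hvL _ (mem_erase.mp g2).2)]
      have := eM v hv
      omega

/-- swapping two labels of leaves -/
theorem swap_case (h2 : E3) (hR : Rooted T c par dep) {p : ℕ} (hp3 : 3 ≤ p)
    (hp : (leaves c par).card = p) (hI : (univ \ leaves c par).card ≤ p + 1) {x : V}
    (hx : x ∈ ch c par c) (hxl : x ∉ leaves c par) (hc4 : 4 ≤ (ch c par c).card)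
    (hx2 : 2 ≤ (ch c par x).card) {e sl : V → ℕ} (hfs : FS c par p x e sl)
    (hRb : 3 * p ≤ Rr c par x e + 3) (heq : S c par e x = Rr c par x e) {s z : V}
    (hs : s ∈ ch c par x) (hsl : s ∈ leaves c par) (hz : z ∈ (ch c par c).erase x)
    (hzl : z ∈ leaves c par) (hlt : e s < e z) : Lab c par p := by
  have hxc : x ≠ c := (mem_ch.mp hx).1
  have hzc := (mem_erase.mp hz).2
  have hsz : s ≠ z := by rintro rfl; omega
  have hdisj : ∀ u v w : V, u ∈ ch c par v → u ∈ ch c par w → v = w := fun u v w h h' =>
    (mem_ch.mp h).2.symm.trans (mem_ch.mp h').2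
  set g : V → V := ⇑(Equiv.swap s z) with hg
  have hgs : g s = z := Equiv.swap_apply_left s z
  have hgz : g z = s := Equiv.swap_apply_right s z
  have hgo : ∀ u, u ≠ s → u ≠ z → g u = u := fun u h h' => Equiv.swap_apply_of_ne_of_ne h h'
  have hgl : ∀ u ∈ leaves c par, g u ∈ leaves c par := by
    intro u hu
    by_cases h : u = s
    · rw [h, hgs]; exact hzl
    · by_cases h' : u = z
      · rw [h', hgz]; exact hsl
      · rw [hgo u h h']; exact hu
  have hPo : ∀ v ∈ PP c par x, g v = v := by
    intro v hv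
    refine hgo v ?_ ?_
    · rintro rfl; exact (mem_PP.mp hv).1 hsl
    · rintro rfl; exact (mem_PP.mp hv).1 hzl
  have hSo : ∀ v ∈ PP c par x, S c par (e ∘ g) v = S c par e v := by
    intro v hv
    refine S_congr fun u hu => ?_
    show e (g u) = e u
    rw [hgo u]
    · rintro rfl
      exact (mem_PP.mp hv).2.2 (hdisj _ _ _ hu hs)
    · rintro rfl
      exact (mem_PP.mp hv).2.1 (hdisj _ _ _ hu hzc)
  have hfs' : FS c par p x (e ∘ g) sl := by
    refine ⟨⟨fun v hv => hfs.ll.1 _ (hgl v hv), fun u hu v hv huv => ?_⟩, fun v hv => ?_,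
      fun v hv => ?_, hfs.one, hfs.inj⟩
    · exact (Equiv.swap s z).injective (hfs.ll.2 (hgl u hu) (hgl v hv) huv)
    · show 1 ≤ e (g v) ∧ e (g v) ≤ p
      rw [hPo v hv]
      exact hfs.lab v hv
    · rw [hSo v hv]
      show _ + e (g v) = _
      rw [hPo v hv]
      exact hfs.val v hv
  have hSx : S c par (e ∘ g) x + e s = S c par e x + e z := by
    unfold S
    rw [← add_sum_erase _ _ hs, ← add_sum_erase (ch c par x) e hs]
    have h4 : ∑ u ∈ (ch c par x).erase s, (e ∘ g) u = ∑ u ∈ (ch c par x).erase s, e u := by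
      refine sum_congr rfl fun u hu => ?_
      show e (g u) = e u
      rw [hgo u (mem_erase.mp hu).1]
      rintro rfl
      exact hxc (hdisj _ _ _ (mem_erase.mp hu).2 hzc)
    rw [h4]
    show e (g s) + _ + e s = _
    rw [hgs]
    omega
  have hRx : Rr c par x (e ∘ g) + e z = Rr c par x e + e s := by
    unfold Rr
    rw [← add_sum_erase _ _ hz, ← add_sum_erase ((ch c par c).erase x) e hz]
    have h4 : ∑ u ∈ ((ch c par c).erase x).erase z, (e ∘ g) u =
        ∑ u ∈ ((ch c par c).erase x).erase z, e u := by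
      refine sum_congr rfl fun u hu => ?_
      show e (g u) = e u
      rw [hgo u ?_ (mem_erase.mp hu).1]
      rintro rfl
      exact hxc (hdisj _ _ _ (mem_erase.mp (mem_erase.mp hu).2).2 hs).symm
    rw [h4]
    show e (g z) + _ + e z = _
    rw [hgz]
    omega
  have b1 := hfs.ll.1 s hsl
  have b2 := hfs.ll.1 z hzl
  exact fs_E3 h2 hfs' hx hxl hp hI hc4 hx2 (by omega) (by omega) (by omega) (Or.inr (by omega))

/-- changing the slot of a star -/
theorem slot_case (h2 : E3) (hR : Rooted T c par dep) {p : ℕ} (hp3 : 3 ≤ p)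
    (hp : (leaves c par).card = p) (hI : (univ \ leaves c par).card ≤ p + 1) {x : V}
    (hx : x ∈ ch c par c) (hxl : x ∉ leaves c par) (hc4 : 4 ≤ (ch c par c).card)
    (hx2 : 2 ≤ (ch c par x).card) {e sl : V → ℕ} (hfs : FS c par p x e sl)
    (hRb : 3 * p ≤ Rr c par x e + 3) (heq : S c par e x = Rr c par x e) {z : V}
    (hz : z ∈ ch c par x) (hzl : z ∉ leaves c par) (hzS : p ≤ S c par e z) :
    Lab c par p := by
  have hxc : x ≠ c := (mem_ch.mp hx).1
  have hzP : z ∈ PP c par x := by
    rcases ch_PP hx hxc hz with h | h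
    · exact absurd h hzl
    · exact h
  have hdisj : ∀ u v w : V, u ∈ ch c par v → u ∈ ch c par w → v = w := fun u v w h h' =>
    (mem_ch.mp h).2.symm.trans (mem_ch.mp h').2
  have hci := card_inner hx hxl
  -- a new slot
  obtain ⟨t, ht, htn⟩ : ∃ t ∈ Ioc (S c par e z - p) (S c par e z),
      t ∉ (PP c par x).image sl := by
    by_contra hcon
    push Not at hcon
    have h4 : Ioc (S c par e z - p) (S c par e z) ⊆ (PP c par x).image sl := hcon
    have h5 := card_le_card h4
    have h6 := card_image_le (s := PP c par x) (f := sl)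
    rw [Nat.card_Ioc] at h5
    omega
  obtain ⟨ht1, ht2⟩ := mem_Ioc.mp ht
  have htn' : ∀ v ∈ PP c par x, sl v ≠ t := fun v hv h => htn (mem_image.mpr ⟨v, hv, h⟩)
  set y := p + t - S c par e z with hy
  have hzz : z ∉ ch c par z := notMem_ch_self hR z
  have hzo : ∀ v ∈ PP c par x, z ∉ ch c par v := by
    intro v hv h
    exact (mem_PP.mp hv).2.2 (hdisj _ _ _ h hz)
  have hzc : z ∉ ch c par c := fun h => hxc (hdisj _ _ _ hz h)
  have hfs' : FS c par p x (Function.update e z y) (Function.update sl z t) := by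
    refine ⟨⟨fun v hv => ?_, fun u hu v hv huv => ?_⟩, fun v hv => ?_,
      fun v hv => ?_, fun v hv => ?_, fun u hu v hv huv => ?_⟩
    · have : v ≠ z := by rintro rfl; exact hzl hv
      rw [Function.update_of_ne this]
      exact hfs.ll.1 v hv
    · have k1 : u ≠ z := by rintro rfl; exact hzl hu
      have k2 : v ≠ z := by rintro rfl; exact hzl hv
      rw [Function.update_of_ne k1, Function.update_of_ne k2] at huv
      exact hfs.ll.2 hu hv huv
    · by_cases h : v = z
      · rw [h, Function.update_self]; omega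
      · rw [Function.update_of_ne h]; exact hfs.lab v hv
    · rw [S_update_of_notMem (hzo v hv)]
      by_cases h : v = z
      · rw [h, Function.update_self, Function.update_self]; omega
      · rw [Function.update_of_ne h, Function.update_of_ne h]; exact hfs.val v hv
    · by_cases h : v = z
      · rw [h, Function.update_self]; omega
      · rw [Function.update_of_ne h]; exact hfs.one v hv
    · by_cases h : u = z
      · by_cases h' : v = z
        · rw [h, h']
        · rw [h, Function.update_self, Function.update_of_ne h'] at huv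
          exact absurd huv.symm (htn' v hv)
      · by_cases h' : v = z
        · rw [h', Function.update_self, Function.update_of_ne h] at huv
          exact absurd huv (htn' u hu)
        · rw [Function.update_of_ne h, Function.update_of_ne h'] at huv
          exact hfs.inj hu hv huv
  have hRx : Rr c par x (Function.update e z y) = Rr c par x e := by
    unfold Rr
    refine sum_congr rfl fun u hu => Function.update_of_ne ?_ _ _
    rintro rfl
    exact hzc (mem_erase.mp hu).2
  have hSx : S c par (Function.update e z y) x + e z = S c par e x + y := by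
    unfold S
    rw [← add_sum_erase _ _ hz, ← add_sum_erase (ch c par x) e hz]
    have h4 : ∑ u ∈ (ch c par x).erase z, Function.update e z y u =
        ∑ u ∈ (ch c par x).erase z, e u :=
      sum_congr rfl fun u hu => Function.update_of_ne (mem_erase.mp hu).1 _ _
    rw [h4, Function.update_self]
    omega
  have b1 := hfs.lab z hzP
  have b2 := hfs.val z hzP
  have b3 := htn' z hzP
  exact fs_E3 h2 hfs' hx hxl hp hI hc4 hx2 (by omega) (by omega) (by omega) (Or.inl (by omega))

theorem s3case (h1 : S3fin) (h2 : E3) (h3 : Labels) : S3case := by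
  intro V _ _ T c par dep hR p hp3 hp hI x hx hxl hoth hc4 hx2 hxi hcase
  have hxc : x ≠ c := (mem_ch.mp hx).1
  have hdisj : ∀ u v w : V, u ∈ ch c par v → u ∈ ch c par w → v = w := fun u v w h h' =>
    (mem_ch.mp h).2.symm.trans (mem_ch.mp h').2
  have hzl : ∀ z ∈ (ch c par c).erase x, z ∈ leaves c par := fun z hz =>
    hoth z (mem_erase.mp hz).2 (mem_erase.mp hz).1
  by_cases hc1 : ∃ u ∈ ch c par x, u ∈ leaves c par
  · obtain ⟨s, hs, hsl⟩ := hc1
    rcases setup h1 h3 hR hp3 hp hI hx hxl hoth hc4 hxi hsl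
      (fun h => hxc (hdisj _ _ _ hs h))
      (fun v hv h => by
        have := hdisj _ _ _ hs h
        subst this
        obtain ⟨u, hu, hul⟩ := hxi
        exact hul ((mem_AA.mp hv).2.2.2 u hu))
      (fun v hv => by
        rw [erase_eq_of_notMem]
        · exact (mem_MM.mp hv).2.2.1
        · intro h
          have := hdisj _ _ _ hs h
          subst this
          obtain ⟨u, hu, hul⟩ := hxi
          exact hul ((mem_MM.mp hv).2.2.2 u hu)) with h | ⟨e, sl, hfs, hRb, hσ, ⟨z, hz, hlt⟩, -⟩
    · exact h
    · by_cases heq : S c par e x = Rr c par x e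
      · exact swap_case h2 hR hp3 hp hI hx hxl hc4 hx2 hfs hRb heq hs hsl hz (hzl z hz) hlt
      · exact fs_E3 h2 hfs hx hxl hp hI hc4 hx2 heq hσ (by omega) (Or.inl hRb)
  · rcases hcase with h | ⟨z, hz, hzl', hz3, hzL⟩
    · exact absurd h hc1
    obtain ⟨s, hs⟩ : (ch c par z).Nonempty := card_pos.mp (by omega)
    have hzc : z ≠ c := (mem_ch.mp hz).1
    have hsl := hzL s hs
    rcases setup h1 h3 hR hp3 hp hI hx hxl hoth hc4 hxi hsl
      (fun h => hzc (hdisj _ _ _ hs h))
      (fun v hv h => by
        have := hdisj _ _ _ hs h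
        subst this
        have := (mem_AA.mp hv).2.2.1
        omega)
      (fun v hv => by
        by_cases h : s ∈ ch c par v
        · have := hdisj _ _ _ hs h
          subst this
          rw [card_erase_of_mem hs]
          omega
        · rw [erase_eq_of_notMem h]
          exact (mem_MM.mp hv).2.2.1) with h | ⟨e, sl, hfs, hRb, hσ, -, hM⟩
    · exact h
    · by_cases heq : S c par e x = Rr c par x e
      · obtain ⟨a, ha, b, hb, hab, hsum⟩ := hM z (mem_MM.mpr ⟨hzc, hzl', by omega, hzL⟩)
        refine slot_case h2 hR hp3 hp hI hx hxl hc4 hx2 hfs hRb heq hz hzl' ?_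
        have h4 : ({s, a, b} : Finset V) ⊆ ch c par z := by
          intro y hy
          simp only [mem_insert, mem_singleton] at hy
          rcases hy with rfl | rfl | rfl
          · exact hs
          · exact (mem_erase.mp ha).2
          · exact (mem_erase.mp hb).2
        have h5 : ∑ u ∈ ({s, a, b} : Finset V), e u ≤ S c par e z := sum_le_sum_of_subset h4
        have k1 : s ≠ a := (mem_erase.mp ha).1.symm
        have k2 : s ≠ b := (mem_erase.mp hb).1.symm
        rw [sum_insert (by simp [k1, k2]), sum_pair hab] at h5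
        have h6 := (hfs.ll.1 s hsl).1
        omega
      · exact fs_E3 h2 hfs hx hxl hp hI hc4 hx2 heq hσ (by omega) (Or.inl hRb)

end Pool.Agent.W249.IR
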