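import Pool.Agent.W104.Irr.Stmts2

/-!
# IR-S3CASE, part 1: the final step
-/

set_option autoImplicit false

namespace Pool.Agent.W249.IR

open Finset Pool.Agent.Helper999.Irr Pool.Agent.W104.Irr

variable {V : Type} [Fintype V] [DecidableEq V] {T : SimpleGraph V} {c : V} {par : V → V}
  {dep : V → ℕ}

/-- the inner vertices other than `c` and `x` -/
def PP (c : V) (par : V → V) (x : V) : Finset V :=
  univ.filter (fun v => v ∉ leaves c par ∧ v ≠ c ∧ v ≠ x)

theorem mem_PP {x v : V} : v ∈ PP c par x ↔ v ∉ leaves c par ∧ v ≠ c ∧ v ≠ x := by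
  unfold PP
  simp

/-- sum of the labels of the leaves at the root -/
def Rr (c : V) (par : V → V) (x : V) (e : V → ℕ) : ℕ := ∑ u ∈ (ch c par c).erase x, e u

/-- a labelling of everything but the edge `x c` -/
structure FS (c : V) (par : V → V) (p : ℕ) (x : V) (e sl : V → ℕ) : Prop where
  ll : LL c par p e
  lab : ∀ v ∈ PP c par x, 1 ≤ e v ∧ e v ≤ p
  val : ∀ v ∈ PP c par x, S c par e v + e v = p + sl v
  one : ∀ v ∈ PP c par x, 1 ≤ sl v
  inj : Set.InjOn sl (PP c par x)

theorem ch_PP {x v u : V} (hx : x ∈ ch c par c) (hv : v ≠ c) (hu : u ∈ ch c par v) :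
    u ∈ leaves c par ∨ u ∈ PP c par x := by
  by_cases h : u ∈ leaves c par
  · exact Or.inl h
  · refine Or.inr (mem_PP.mpr ⟨h, (mem_ch.mp hu).1, ?_⟩)
    rintro rfl
    exact hv ((mem_ch.mp hu).2.symm.trans (mem_ch.mp hx).2)

theorem x_notMem_ch {x v : V} (hx : x ∈ ch c par c) (hv : v ≠ c) : x ∉ ch c par v := by
  intro h
  exact hv ((mem_ch.mp h).2.symm.trans (mem_ch.mp hx).2)

theorem S_root {x : V} (hx : x ∈ ch c par c) (e : V → ℕ) :
    S c par e c = e x + Rr c par x e := by
  unfold S Rr
  rw [← add_sum_erase _ _ hx]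

theorem fs_fin {p : ℕ} {x : V} {e sl : V → ℕ} (hfs : FS c par p x e sl) (hx : x ∈ ch c par c)
    (hxl : x ∉ leaves c par) {α X Z : ℕ} (hα : 1 ≤ α) (hα' : α ≤ p)
    (hX : S c par e x + α = p + X) (hZ : Rr c par x e + α = p + Z) (hX1 : 1 ≤ X) (hZ1 : 1 ≤ Z)
    (hXZ : X ≠ Z) (hXP : ∀ v ∈ PP c par x, sl v ≠ X) (hZP : ∀ v ∈ PP c par x, sl v ≠ Z) :
    Lab c par p := by
  have hxc : x ≠ c := (mem_ch.mp hx).1
  have hcx : c ≠ x := hxc.symm
  refine fin_lab (e := Function.update e x α)
    (sl := fun v => if v = x then X else if v = c then Z else sl v) ?_ ?_ ?_ ?_ ?_ ?_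
  · refine ⟨fun v hv => ?_, fun u hu v hv huv => ?_⟩
    · have : v ≠ x := by rintro rfl; exact hxl hv
      rw [Function.update_of_ne this]
      exact hfs.ll.1 v hv
    · have h1 : u ≠ x := by rintro rfl; exact hxl hu
      have h2 : v ≠ x := by rintro rfl; exact hxl hv
      rw [Function.update_of_ne h1, Function.update_of_ne h2] at huv
      exact hfs.ll.2 hu hv huv
  · intro v hvc hvl
    by_cases h : v = x
    · rw [h, Function.update_self]; exact ⟨hα, hα'⟩
    · rw [Function.update_of_ne h]
      exact hfs.lab v (mem_PP.mpr ⟨hvl, hvc, h⟩)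
  · intro v hvc hvl
    rw [S_update_of_notMem (x_notMem_ch hx hvc)]
    by_cases h : v = x
    · rw [h, Function.update_self]
      simp only [if_true]
      exact hX
    · rw [Function.update_of_ne h]
      simp only [if_neg h, if_neg hvc]
      exact hfs.val v (mem_PP.mpr ⟨hvl, hvc, h⟩)
  · rw [S_root hx, Function.update_self]
    have h1 : Rr c par x (Function.update e x α) = Rr c par x e := by
      unfold Rr
      exact sum_congr rfl fun u hu => Function.update_of_ne (mem_erase.mp hu).1 _ _
    rw [h1]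
    simp only [if_neg hcx, if_true]
    omega
  · intro v hvl
    by_cases h : v = x
    · simp only [h, if_true]; exact hX1
    · by_cases h' : v = c
      · subst h'
        simp only [if_neg h, if_true]; exact hZ1
      · simp only [if_neg h, if_neg h']
        exact hfs.one v (mem_PP.mpr ⟨hvl, h', h⟩)
  · intro u v hul hvl huv
    by_cases hu : u = x
    · by_cases hv : v = x
      · rw [hu, hv]
      · by_cases hvc : v = c
        · rw [if_pos hu, if_neg hv, if_pos hvc] at huv
          exact absurd huv hXZ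
        · rw [if_pos hu, if_neg hv, if_neg hvc] at huv
          exact absurd huv.symm (hXP v (mem_PP.mpr ⟨hvl, hvc, hv⟩))
    · by_cases huc : u = c
      · by_cases hv : v = x
        · rw [if_neg hu, if_pos huc, if_pos hv] at huv
          exact absurd huv.symm hXZ
        · by_cases hvc : v = c
          · rw [huc, hvc]
          · rw [if_neg hu, if_pos huc, if_neg hv, if_neg hvc] at huv
            exact absurd huv.symm (hZP v (mem_PP.mpr ⟨hvl, hvc, hv⟩))
      · by_cases hv : v = x
        · rw [if_neg hu, if_neg huc, if_pos hv] at huv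
          exact absurd huv (hXP u (mem_PP.mpr ⟨hul, huc, hu⟩))
        · by_cases hvc : v = c
          · rw [if_neg hu, if_neg huc, if_neg hv, if_pos hvc] at huv
            exact absurd huv (hZP u (mem_PP.mpr ⟨hul, huc, hu⟩))
          · rw [if_neg hu, if_neg huc, if_neg hv, if_neg hvc] at huv
            exact hfs.inj (mem_PP.mpr ⟨hul, huc, hu⟩) (mem_PP.mpr ⟨hvl, hvc, hv⟩) huv

/-- the inner vertices -/
theorem inner_eq {x : V} (hx : x ∈ ch c par c) (hxl : x ∉ leaves c par) :
    univ \ leaves c par = insert c (insert x (PP c par x)) := by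
  ext v
  rw [mem_sdiff, mem_insert, mem_insert, mem_PP]
  constructor
  · rintro ⟨-, h⟩
    by_cases h1 : v = c
    · exact Or.inl h1
    · by_cases h2 : v = x
      · exact Or.inr (Or.inl h2)
      · exact Or.inr (Or.inr ⟨h, h1, h2⟩)
  · rintro (rfl | rfl | h)
    · exact ⟨mem_univ _, root_notMem_leaves⟩
    · exact ⟨mem_univ _, hxl⟩
    · exact ⟨mem_univ _, h.1⟩

theorem card_inner {x : V} (hx : x ∈ ch c par c) (hxl : x ∉ leaves c par) :
    (univ \ leaves c par).card = (PP c par x).card + 2 := by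
  have hxc : x ≠ c := (mem_ch.mp hx).1
  rw [inner_eq hx hxl, card_insert_of_notMem, card_insert_of_notMem]
  · intro h; exact (mem_PP.mp h).2.2 rfl
  · intro h
    rcases mem_insert.mp h with h | h
    · exact hxc h.symm
    · exact (mem_PP.mp h).2.1 rfl

theorem ch_pos {v : V} (hv : v ≠ c) (hvl : v ∉ leaves c par) : 1 ≤ (ch c par v).card := by
  rw [Nat.succ_le_iff, card_pos, nonempty_iff_ne_empty]
  intro h
  exact hvl (mem_leaves.mpr ⟨hv, h⟩)

/-- the sum of the excesses of the degrees -/
theorem sum_excess {p : ℕ} {x : V} (hx : x ∈ ch c par c) (hxl : x ∉ leaves c par)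
    (hp : (leaves c par).card = p) (hc4 : 4 ≤ (ch c par c).card) (hx2 : 2 ≤ (ch c par x).card) :
    ∑ v ∈ PP c par x, ((ch c par v).card + 1 - 2) + 5 ≤ p := by
  have hxc : x ≠ c := (mem_ch.mp hx).1
  have h1 := sum_ch c par
  have h2 : ∑ v : V, (ch c par v).card = ∑ v ∈ univ \ leaves c par, (ch c par v).card := by
    symm
    refine sum_subset (subset_univ _) fun v _ hv => ?_
    have hvl : v ∈ leaves c par := by
      by_contra h
      exact hv (mem_sdiff.mpr ⟨mem_univ _, h⟩)
    rw [(mem_leaves.mp hvl).2, card_empty]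
  have h3 : ∑ v ∈ univ \ leaves c par, (ch c par v).card =
      (ch c par c).card + ((ch c par x).card + ∑ v ∈ PP c par x, (ch c par v).card) := by
    rw [inner_eq hx hxl, sum_insert, sum_insert]
    · intro h; exact (mem_PP.mp h).2.2 rfl
    · intro h
      rcases mem_insert.mp h with h | h
      · exact hxc h.symm
      · exact (mem_PP.mp h).2.1 rfl
  have h4 : Fintype.card V = p + ((PP c par x).card + 2) := by
    rw [← card_inner hx hxl, ← hp, ← card_univ, add_comm, card_sdiff_add_card_eq_card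
      (subset_univ _)]
  have h5 : ∑ v ∈ PP c par x, (ch c par v).card =
      ∑ v ∈ PP c par x, ((ch c par v).card + 1 - 2) + (PP c par x).card := by
    rw [card_eq_sum_ones, ← sum_add_distrib]
    refine sum_congr rfl fun v hv => ?_
    have := ch_pos (mem_PP.mp hv).2.1 (mem_PP.mp hv).1
    omega
  omega

theorem fs_E3 (h2 : E3) {p : ℕ} {x : V} {e sl : V → ℕ} (hfs : FS c par p x e sl)
    (hx : x ∈ ch c par c) (hxl : x ∉ leaves c par)
    (hp : (leaves c par).card = p) (hI : (univ \ leaves c par).card ≤ p + 1)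
    (hc4 : 4 ≤ (ch c par c).card) (hx2 : 2 ≤ (ch c par x).card)
    (hne : S c par e x ≠ Rr c par x e) (hs : p ≤ S c par e x) (hr : p ≤ Rr c par x e)
    (hbig : 3 * p ≤ Rr c par x e + 3 ∨ 3 * p ≤ S c par e x + 3) : Lab c par p := by
  have hcard := card_inner hx hxl
  have key : ∀ A B : ℕ, 3 * p ≤ A + 3 → p ≤ B → A ≠ B →
      ∃ α : ℕ, 1 ≤ α ∧ α ≤ p ∧ ∀ v ∈ PP c par x, A + α ≠ p + sl v ∧ B + α ≠ p + sl v := by
    intro A B hA hB hAB
    refine h2 (PP c par x) sl (fun v => (ch c par v).card + 1) p A B hfs.inj (by omega) ?_ ?_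
      (sum_excess hx hxl hp hc4 hx2) hA hB hAB
    · intro v hv
      have := ch_pos (mem_PP.mp hv).2.1 (mem_PP.mp hv).1
      show 2 ≤ (ch c par v).card + 1
      omega
    · intro v hv
      have h3 : S c par e v ≤ (ch c par v).card * p := by
        unfold S
        rw [← smul_eq_mul]
        refine sum_le_card_nsmul _ _ _ fun u hu => ?_
        rcases ch_PP hx (mem_PP.mp hv).2.1 hu with h | h
        · exact (hfs.ll.1 u h).2
        · exact (hfs.lab u h).2
      have h4 := hfs.val v hv
      have h5 := (hfs.lab v hv).2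
      show sl v + p ≤ ((ch c par v).card + 1) * p
      rw [add_mul, one_mul]
      omega
  have fin : ∀ α : ℕ, 1 ≤ α → α ≤ p → (∀ v ∈ PP c par x, Rr c par x e + α ≠ p + sl v ∧
      S c par e x + α ≠ p + sl v) → Lab c par p := by
    intro α h3 h4 h5
    refine fs_fin hfs hx hxl h3 h4 (X := S c par e x + α - p) (Z := Rr c par x e + α - p)
      (by omega) (by omega) (by omega) (by omega) (by omega) ?_ ?_
    · intro v hv h6
      have := (h5 v hv).2
      omega
    · intro v hv h6
      have := (h5 v hv).1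
      omega
  rcases hbig with h | h
  · obtain ⟨α, h3, h4, h5⟩ := key _ _ h hs hne.symm
    exact fin α h3 h4 h5
  · obtain ⟨α, h3, h4, h5⟩ := key _ _ h hr hne
    exact fin α h3 h4 fun v hv => ⟨(h5 v hv).2, (h5 v hv).1⟩

end Pool.Agent.W249.IR
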